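import Mathlib
import Pool.Agent.H51.PackA

set_option autoImplicit false

namespace Pool.Agent.Results.MP_2e9bdd_an.Metrisable

open Set Pool.Agent.H51.PackA

/-- The lattice simultaneous packing and covering constant. -/
noncomputable def gammaStar (X : Type*) [NormedAddCommGroup X] : ℝ :=
  sInf {r : ℝ | 0 < r ∧ ∃ P : AddSubgroup X, (∀ x : X, ∃ p ∈ P, ‖x - p‖ ≤ r) ∧
    ∀ p ∈ P, ∀ q ∈ P, p ≠ q → 2 ≤ ‖p - q‖}

lemma main (K : Type*) [TopologicalSpace K] [CompactSpace K] [TopologicalSpace.MetrizableSpace K]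
    {r' : ℝ} (h1 : 1 < r') (h2 : r' < 2) :
    ∃ P : AddSubgroup C(K, ℝ), Sep P ∧ ∀ x, ∃ p ∈ P, ‖x - p‖ ≤ r' := by
  obtain ⟨V, D, hV, hD, hVD⟩ := exists_countable_union_perfect_of_isClosed (isClosed_univ (X := K))
  haveI : CompactSpace D := isCompact_iff_compactSpace.1 hD.closed.isCompact
  have hr : 1 < (r' + 1) / 2 := by linarith
  have h0 : ∃ P : AddSubgroup C(D, ℝ), Sep P ∧ ∀ x, ∃ p ∈ P, ‖x - p‖ ≤ (r' + 1) / 2 := by
    rcases isEmpty_or_nonempty D with hE | hE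
    · refine ⟨⊥, fun p hp h0 => absurd (by simpa using hp) h0, fun x => ⟨0, zero_mem _, ?_⟩⟩
      rw [ContinuousMap.norm_le _ (by linarith)]
      exact fun t => hE.elim t
    · refine sepgrp (oct fun U hU ⟨x, hx⟩ => ?_) hr
      obtain ⟨W, hW, rfl⟩ := isOpen_induced_iff.1 hU
      have := ((hD.acc x.1 x.2).nhds_inter (hW.mem_nhds hx))
      refine Set.Infinite.of_image Subtype.val ?_
      rw [Subtype.image_preimage_coe, inter_comm]
      exact Set.Infinite.of_accPt this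
  obtain ⟨P, hP, hP2⟩ := h0
  let ρ : C(K, ℝ) →ₗ[ℝ] C(D, ℝ) :=
    { toFun := fun f => f.restrict D, map_add' := fun _ _ => rfl, map_smul' := fun _ _ => rfl }
  obtain ⟨s, hs⟩ := LinearMap.exists_rightInverse_of_surjective ρ
    (LinearMap.range_eq_top.2 fun f => ContinuousMap.exists_restrict_eq hD.closed f)
  have hs' : ∀ q, ρ (s q) = q := fun q => LinearMap.congr_fun hs q
  refine ⟨{ carrier := {f | ρ f ∈ P ∧ ∀ t, ∃ k : ℤ, f t - s (ρ f) t = 2 * k}
            zero_mem' := ⟨by simp, fun t => ⟨0, by simp⟩⟩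
            add_mem' := ?_
            neg_mem' := ?_ }, ?_, fun f => ?_⟩
  · rintro a b ⟨a1, a2⟩ ⟨b1, b2⟩
    refine ⟨by rw [map_add]; exact add_mem a1 b1, fun t => ?_⟩
    obtain ⟨k, hk⟩ := a2 t
    obtain ⟨l, hl⟩ := b2 t
    refine ⟨k + l, ?_⟩
    simp only [map_add, ContinuousMap.add_apply, Int.cast_add]
    linarith
  · rintro a ⟨a1, a2⟩
    refine ⟨by rw [map_neg]; exact neg_mem a1, fun t => ?_⟩
    obtain ⟨k, hk⟩ := a2 t
    refine ⟨-k, ?_⟩
    simp only [map_neg, ContinuousMap.neg_apply, Int.cast_neg]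
    linarith
  · rintro f ⟨a1, a2⟩ hf
    by_cases h : ρ f = 0
    · obtain ⟨t, ht⟩ : ∃ t, f t ≠ 0 := by
        by_contra hc
        push Not at hc
        exact hf (ContinuousMap.ext hc)
      obtain ⟨k, hk⟩ := a2 t
      rw [h, map_zero, ContinuousMap.zero_apply, sub_zero] at hk
      have hk0 : k ≠ 0 := by rintro rfl; simp [ht] at hk
      have : (1 : ℝ) ≤ |(k : ℝ)| := by exact_mod_cast Int.one_le_abs hk0
      have h3 := f.norm_coe_le_norm t
      rw [hk, Real.norm_eq_abs, abs_mul, abs_two] at h3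
      linarith
    · refine (hP _ a1 h).trans ?_
      rw [ContinuousMap.norm_le _ (norm_nonneg _)]
      exact fun t => f.norm_coe_le_norm t.1
  · obtain ⟨q, hq, hq2⟩ := hP2 (ρ f)
    obtain ⟨g, g1, g2, g3⟩ := round2 hV hVD (f - s q) hr (by linarith) h2 (fun t ht => by
      have := ((ρ f - q).norm_coe_le_norm ⟨t, ht⟩).trans hq2
      have e : (s q) t = q ⟨t, ht⟩ := by
        conv_rhs => rw [← hs' q]
        rfl
      rw [ContinuousMap.sub_apply, e]
      exact this)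
    have e : ρ (s q + g) = q := by
      rw [map_add, hs', show ρ g = 0 from ContinuousMap.ext fun t => g1 t.1 t.2, add_zero]
    refine ⟨s q + g, ⟨by rw [e]; exact hq, fun t => ?_⟩, by rwa [← sub_sub]⟩
    obtain ⟨k, hk⟩ := g2 t
    exact ⟨k, by rw [e, ContinuousMap.add_apply, ← hk]; ring⟩

theorem result (K : Type*) [TopologicalSpace K] [CompactSpace K]
    [TopologicalSpace.MetrizableSpace K] [Nonempty K] : gammaStar C(K, ℝ) = 1 := by
  have ex : ∀ w : ℝ, 1 < w → ∃ r ∈ {r : ℝ | 0 < r ∧ ∃ P : AddSubgroup C(K, ℝ),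
      (∀ x, ∃ p ∈ P, ‖x - p‖ ≤ r) ∧ ∀ p ∈ P, ∀ q ∈ P, p ≠ q → 2 ≤ ‖p - q‖}, r < w := by
    intro w hw
    have a : 1 < min ((w + 1) / 2) (3 / 2) := lt_min (by linarith) (by norm_num)
    obtain ⟨P, hP, hP2⟩ := main K a ((min_le_right _ _).trans_lt (by norm_num))
    exact ⟨_, ⟨by linarith, P, hP2, fun p hp q hq h => hP _ (sub_mem hp hq) (sub_ne_zero.2 h)⟩,
      (min_le_left _ _).trans_lt (by linarith)⟩
  refine csInf_eq_of_forall_ge_of_forall_gt_exists_lt ?_ ?_ ex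
  · obtain ⟨r, hr, _⟩ := ex 2 (by norm_num)
    exact ⟨r, hr⟩
  · rintro r ⟨_, P, h1, h2⟩
    obtain ⟨p, hp, hp2⟩ := h1 1
    by_cases h : p = 0
    · rw [h, sub_zero, norm_one] at hp2; exact hp2
    · have := h2 p hp 0 (zero_mem _) h
      have h3 := norm_sub_le (1 : C(K, ℝ)) (1 - p)
      rw [sub_sub_cancel, norm_one] at h3
      rw [sub_zero] at this
      linarith

end Pool.Agent.Results.MP_2e9bdd_an.Metrisable
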